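import Pool.Agent.SixthPow.Families

set_option autoImplicit false

namespace Pool.Agent.Results.MP_64425b_nt.SolutionShape

open Pool.Agent.SixthPow

/-- Restrictions on the solutions of `a⁶ + b⁶ + c⁶ + d⁶ + e⁶ = f⁶` in positive integers. The
statement holds for every order of the five terms, so `e` may be any of them. -/
theorem result : ∀ a b c d e f : ℕ, 0 < a → 0 < b → 0 < c → 0 < d → 0 < e →
    a ^ 6 + b ^ 6 + c ^ 6 + d ^ 6 + e ^ 6 = f ^ 6 →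
    ¬ (b = c ∧ b ^ 2 = a * d) ∧
    ¬ (a = b ∧ b = c ∧ d ^ 2 = a * e) ∧
    ¬ (b ^ 2 = a * c ∧ c ^ 2 = b * d ∧ d ^ 2 = c * e) ∧
    ((∀ k : ℕ, k ∣ a → k ∣ b → k ∣ c → k ∣ d → k ∣ e → k = 1) →
      (∃ m : ℕ, 1 < m ∧ Squarefree m ∧
        (∀ p : ℕ, p.Prime → p ∣ m → p % 3 = 1 ∧
          Odd (padicValNat p (a ^ 6 + b ^ 6 + c ^ 6 + d ^ 6))) ∧
        (Nat.Coprime e 6 → m % 24 = 1) ∧ (12 ∣ e → m % 24 = 1) ∧ (e % 12 = 6 → m % 24 = 13) ∧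
        (e % 6 = 3 → m % 24 = 19) ∧ (¬ 3 ∣ e → e % 4 = 0 → m % 24 = 19) ∧
        (¬ 3 ∣ e → e % 4 = 2 → m % 24 = 7) ∧
        (m.Prime → e % 8 ≠ 4 ∧ e % 12 ≠ 6 ∧
          ((Nat.Coprime e 6 ∨ 12 ∣ e) → ∃ w : ZMod m, w ^ 4 = -3))) ∧
      (a * d = b * c →
        f % 4 = 1 ∧ ((Nat.Coprime e 6 ∧ (6 ^ 5 ∣ f - e ∨ 6 ^ 5 ∣ f + e)) ∨ 12 ∣ e)) ∧
      ((∃ x y : ℕ, a ^ 6 + b ^ 6 + c ^ 6 + d ^ 6 = x ^ 2 + y ^ 2) →
        (f / Nat.gcd e f) % 4 = 1 ∧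
          ((Nat.Coprime e 6 ∧ (6 ^ 5 ∣ f - e ∨ 6 ^ 5 ∣ f + e)) ∨ 12 ∣ e)) ∧
      (a = b → b = c → (f % 3 = 1 ↔ (2 ∣ e ↔ 3 ∣ e))) ∧
      ((∃ x y : ℤ, ((a ^ 6 + b ^ 6 + c ^ 6 + d ^ 6 : ℕ) : ℤ) = x ^ 2 + x * y + y ^ 2) →
        ((f / Nat.gcd e f) % 3 = 1 ↔ (2 ∣ e ↔ 3 ∣ e)))) := by
  intro a b c d e f ha hb hc hd he h
  refine ⟨?_, ?_, ?_, ?_⟩
  · rintro ⟨rfl, h1⟩
    exact clause_pair a b d e f ha he h h1
  · rintro ⟨rfl, rfl, h1⟩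
    exact clause_triple a d e f ha he hd h h1
  · rintro ⟨h1, h2, h3⟩
    exact no_gp a b c d e f hb hc hd h h1 h2 h3
  · intro hprim
    refine ⟨clause_shape a b c d e f ha he h hprim, clause_prop a b c d e f ha he h hprim,
      clause_two a b c d e f ha he h hprim, ?_, clause_loesch a b c d e f ha he h hprim⟩
    rintro rfl rfl
    exact clause_equal a d e f ha he h hprim

end Pool.Agent.Results.MP_64425b_nt.SolutionShape
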